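import Pool.Agent.MP_02cac4_co.Sp.Final
import Pool.Agent.MP_02cac4_co.Sp.Type

set_option autoImplicit false

open Pool.Agent.MP_02cac4_co

/-- For every `m` with `d(d+1)/2 ≤ m ≤ min (d^2, 2^d - 1)` there is an open, non-meagre set of
o-symmetric convex bodies each of which has a densest lattice, and all of whose densest lattices
have exactly `2m` minimal vectors, are maximum, and are ultra-maximum exactly when `m = d^2`. -/
theorem Pool.Agent.Results.MP_02cac4_co.DensestSpectrum.result (d m : ℕ) (hd : 1 ≤ d)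
    (hlo : d * (d + 1) ≤ 2 * m) (hhi : m ≤ d ^ 2) (hM : m + 1 ≤ 2 ^ d) :
    ∃ U : Set (SymmBody d), IsOpen U ∧ ¬ IsMeagre U ∧
      ∀ C ∈ U, DensestOfType (C.1 : Set (EuclideanSpace ℝ (Fin d))) m :=
  Sp.spectrum d m hd hlo hhi hM
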